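import Pool.Agent.Helper5.FS.Stmts

set_option autoImplicit false

open Finset Pool.Agent.Helper5.FS

namespace Pool.Agent.Helper93.FS

theorem st_CVX : ST_CVX := by
  intro α β _ _ K Q f hf
  have h1 : K.card = ∑ c ∈ Q, (K.filter (fun a => f a = c)).card :=
    card_eq_sum_card_fiberwise (fun a ha => hf a ha)
  have h2 : ((K ×ˢ K).filter (fun p => f p.1 = f p.2)).card =
      ∑ c ∈ Q, (K.filter (fun a => f a = c)).card ^ 2 := by
    rw [card_eq_sum_card_fiberwise (f := fun p : α × α => f p.1) (t := Q)]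
    · apply sum_congr rfl
      intro c _
      rw [sq, ← card_product]
      congr 1
      ext p
      simp only [mem_filter, mem_product]
      constructor
      · rintro ⟨⟨⟨h3, h4⟩, h5⟩, h6⟩
        exact ⟨⟨h3, h6⟩, h4, by rw [← h5]; exact h6⟩
      · rintro ⟨⟨h3, h4⟩, h5, h6⟩
        exact ⟨⟨⟨h3, h5⟩, by rw [h4, h6]⟩, h4⟩
    · intro p hp
      exact hf _ (mem_product.1 (mem_filter.1 hp).1).1
  have h3 : (∑ c ∈ Q, (K.filter (fun a => f a = c)).card) ^ 2 ≤
      Q.card * ∑ c ∈ Q, (K.filter (fun a => f a = c)).card ^ 2 := sq_sum_le_card_mul_sum_sq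
  have h4 : ((K ×ˢ K).filter (fun p => f p.1 = f p.2)).card ≤
      K.card + ((K ×ˢ K).filter (fun p => p.1 ≠ p.2 ∧ f p.1 = f p.2)).card := by
    have h5 : (K ×ˢ K).filter (fun p => f p.1 = f p.2) ⊆
        (K.image (fun a => (a, a))) ∪ (K ×ˢ K).filter (fun p => p.1 ≠ p.2 ∧ f p.1 = f p.2) := by
      intro p hp
      rw [mem_filter] at hp
      by_cases h : p.1 = p.2
      · apply mem_union_left
        rw [mem_image]
        exact ⟨p.1, (mem_product.1 hp.1).1, Prod.ext rfl h⟩
      · exact mem_union_right _ (mem_filter.2 ⟨hp.1, h, hp.2⟩)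
    exact (card_le_card h5).trans ((card_union_le _ _).trans
      (Nat.add_le_add_right card_image_le _))
  rw [← h1, ← h2] at h3
  calc K.card * K.card = K.card ^ 2 := by ring
    _ ≤ Q.card * ((K ×ˢ K).filter (fun p => f p.1 = f p.2)).card := h3
    _ ≤ _ := Nat.mul_le_mul_left _ h4

end Pool.Agent.Helper93.FS
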